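import Mathlib
import Pool.Agent.H.MP_ca8007_co.B

set_option autoImplicit false
open Finset

namespace Pool.Agent.Results.MP_ca8007_co.Yes
open Pool.Agent.H.MP_ca8007_co

theorem result (n : ℕ) (hn : 3 ≤ n) :
    ∃ (α : Type) (_ : Fintype α) (_ : DecidableEq α) (K : Set (Finset α)),
      A.IsSphere n K ∧ {v | {v} ∈ K}.ncard = 2 * n + 4 ∧
      (∃ φ : α → α, (∀ v, φ (φ v) = v) ∧ ∀ σ ∈ K, σ.image φ ∈ K ∧ Disjoint (σ.image φ) σ) ∧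
      ¬ ∃ (p : α → EuclideanSpace ℝ (Fin (n + 1))) (P : Set (EuclideanSpace ℝ (Fin (n + 1)))),
        P = convexHull ℝ (p '' {v | {v} ∈ K}) ∧ P = -P ∧
        ∀ σ ∈ K, ∃ (u : EuclideanSpace ℝ (Fin (n + 1)) →L[ℝ] ℝ) (c : ℝ), (∀ x ∈ P, u x ≤ c) ∧
          ∀ v, {v} ∈ K → (u (p v) = c ↔ v ∈ σ) := by
  obtain ⟨j, rfl⟩ := Nat.exists_eq_add_of_le hn
  refine ⟨_, inferInstance, inferInstance, B.K j, A.sph j A.base, ?_, ⟨B.φ, B.inv, fun _ => B.im⟩,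
    fun ⟨p, P, a, b, c⟩ => B.no (by simp; omega) p a b c⟩
  simp only [B.vert]
  rw [show {v : Fin 11 ⊕ Fin j × Bool | v ≠ .inl 10} = ↑(univ.erase (Sum.inl 10 : Fin 11 ⊕ Fin j × Bool))
    by ext; simp, Set.ncard_coe_finset, card_erase_of_mem (mem_univ _)]
  simp
  omega

end Pool.Agent.Results.MP_ca8007_co.Yes
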